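import Pool.Agent.X98.GP.Fin

/-!
# Isomonodromic families: finitely many points of finitely many members decide

Let `∂/∂x_i - N i / T i` (`x_i` the coordinate of the fibres, the other coordinates are parameters) be
an algebraic family of connections which is isomonodromic: there are operators
`∂/∂x_l - N l / T l` for the parameters `x_l` commuting with it.  It is proved that the `p`-curvatures
of all members of the family vanish if they vanish at the points of a finite grid, whose size is
bounded in terms of the degrees of `T i` and `N i` only (the other `N l`, `T l` may have any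
degree); and the same for the nilpotence of the `p`-curvatures.

Outline of the proof.  Let `Q = T ^ p ∇ ^ p (1)` be the matrix of the `p`-curvature, its degree in
`x_l` is at most `p δ_l`.  It is horizontal with respect to all coordinates: `T_l ∂_l Q = [N_l, Q]`.  If
it vanishes at a point then its Taylor coefficients of order less than `p` in one of the coordinates
vanish; so a restriction of `Q` to a line in the direction `x_l` which vanishes at `δ_l + 1` points
with `T_l ≠ 0` is zero.  For the nilpotence the same is applied to `det (c - Q) - c ^ n`, which is
annihilated by all derivations.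
-/

set_option autoImplicit false

open MvPolynomial Pool.Agent.X98.GP Pool.Agent.X98.KZ

universe u v

namespace Pool.Agent.Results.MP_0707f5_ag.FinitelyManyPoints

/-- Let `R` be a domain, `x_l` (`l ∈ ι`) finitely many variables, `T l ∈ R[x]`, `N l` matrices over
`R[x]` of size `n`, such that `∇_i = ∂/∂x_i - N i / T i` commutes with all `∂/∂x_l - N l / T l`.  Let
the degree of `N i` in `x_l` be at most `δ l`, that of `T i` at most `δ l` (at most `δ i + 1` for
`l = i`).  Let `Z l` be finite subsets of `R` such that the `T l` do not vanish at the points of the
grid `Z = ∏ Z l`.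

Then at almost all closed points `𝔪` of `Spec R` (of residue characteristic `p`) the following holds
for the `p`-curvature of `∇_i`:
* if `Z l` has more than `δ l` elements for all `l` and the `p`-curvature vanishes modulo `𝔪` at the
  points of `Z` then it vanishes modulo `𝔪` identically;
* if `Z l` has more than `n δ l` elements for all `l` and the `p`-curvature is nilpotent modulo `𝔪` at
  the points of `Z` then it is nilpotent modulo `𝔪` identically. -/
theorem result {R : Type u} [CommRing R] [IsDomain R] {ι : Type v} [Fintype ι] [DecidableEq ι]
    {n : ℕ} (T : ι → MvPolynomial ι R) (N : ι → Matrix (Fin n) (Fin n) (MvPolynomial ι R))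
    (i : ι) (hflat : ∀ l, Flat T N i l) (δ : ι → ℕ)
    (hTd : ∀ l, degreeOf l (T i) ≤ δ l + if l = i then 1 else 0)
    (hNd : ∀ l a b, degreeOf l (N i a b) ≤ δ l) (Z : ι → Finset R)
    (hT : ∀ z : ι → R, (∀ l, z l ∈ Z l) → ∀ l, eval z (T l) ≠ 0) :
    AlmostAll R (fun 𝔪 p =>
      ((∀ l, δ l < (Z l).card) →
        (∀ z : ι → R, (∀ l, z l ∈ Z l) →
          (mcurv i (T i) (N i) p).map (fun f => Ideal.Quotient.mk 𝔪 (eval z f)) = 0) →
        (mcurv i (T i) (N i) p).map (MvPolynomial.map (Ideal.Quotient.mk 𝔪)) = 0) ∧
      ((∀ l, n * δ l < (Z l).card) →
        (∀ z : ι → R, (∀ l, z l ∈ Z l) →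
          IsNilpotent ((mcurv i (T i) (N i) p).map (fun f => Ideal.Quotient.mk 𝔪 (eval z f)))) →
        IsNilpotent ((mcurv i (T i) (N i) p).map (MvPolynomial.map (Ideal.Quotient.mk 𝔪))))) :=
  main.{u, v} T N i hflat δ hTd hNd Z hT

end Pool.Agent.Results.MP_0707f5_ag.FinitelyManyPoints
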