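import Pool.Agent.X319.OM.Fin

/-!
# Algebraic isomonodromic families: vanishing of the p-curvature passes from one member to all

Let `S` be the system `y' = ∑ A_i / (x - z_i) y` over a domain `R` of characteristic zero and let
`A_i(s)` be its isomonodromic deformation when the poles move along the line `a_i = z_i + c_i s`
(a formal power series in `s`, the solution of the Schlesinger equations).  Suppose that this
deformation is algebraic, that is, the entries of all `A_i(s)` are algebraic over `R[s]`.  We show
that for almost all `p` the `p`-curvature of the whole family is zero modulo `p` if the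
`p`-curvature of the one member `S` is.

Outline of the proof.  The Taylor coefficients of the `p`-curvature `ψ(s)` of the family are
divisible by `p` in degrees less than `p ^ 2` (helper98's theorem `SchlesingerIntegrality`).  The
reductions of the `A_i(s)` modulo a prime over `p` are algebraic functions on a curve whose degree
does not depend on `p` (Eisenstein's theorem), and `ψ(s)` is a polynomial of degree at most `m p`
in these functions.  By a count of dimensions a nonzero polynomial of degree `d` in algebraic power
series vanishes at most to the order `α d`, with `α` independent of the prime.  Since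
`p ^ 2 > α m p` for large `p`, the reduction of `ψ(s)` is zero.
-/

set_option autoImplicit false

namespace Pool.Agent.Results.MP_0707f5_ag.OneMember

open Pool.Agent.X98.KZ Pool.Agent.X98.SL PowerSeries

variable {R K k : Type} [CommRing R] [Field K] [Algebra R K] [Field k] {m n : ℕ}

/-- `(A_i(s))` is the isomonodromic deformation of the system `y' = ∑ A_i / (x - z_i) y` when the
poles move along `a_i = z_i + c_i s`: it solves the Schlesinger equations
`A_i' = -∑_j (c_i - c_j) / (a_i - a_j) [A_i, A_j]`, with the given values at `s = 0`. -/
def IsDeformation (z c : Fin m → R) (A₀ : Fin m → Matrix (Fin n) (Fin n) R)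
    (A : Fin m → Matrix (Fin n) (Fin n) K⟦X⟧) : Prop :=
  (∀ i, (A i).map (constantCoeff (R := K)) = (A₀ i).map (algebraMap R K)) ∧
    Schl (fun i => algebraMap R K (z i)) (fun i => algebraMap R K (c i)) A

/-- The p-curvature of `y' = ∑ A_i / (x - z_i) y` is zero modulo `p`. -/
def PCurvZero (z : Fin m → R) (A₀ : Fin m → Matrix (Fin n) (Fin n) R) (p : ℕ) : Prop :=
  ∀ a b, (p : Polynomial R) ∣ curv A₀ z p a b

/-- `y ∈ k` is the reduction of `x ∈ K` under `φ : R → k`: `x = a / b` with `φ b ≠ 0` and
`y = φ a / φ b`. -/
def IsReduction (φ : R →+* k) (x : K) (y : k) : Prop :=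
  ∃ a b : R, φ b ≠ 0 ∧ algebraMap R K b * x = algebraMap R K a ∧ φ b * y = φ a

/-- **From one member to an algebraic isomonodromic family.** -/
theorem result [IsDomain R] [CharZero R] [IsFractionRing R K] (z c : Fin m → R)
    (hz : ∀ i j, i ≠ j → IsUnit (z i - z j)) (A₀ : Fin m → Matrix (Fin n) (Fin n) R)
    (A : Fin m → Matrix (Fin n) (Fin n) K⟦X⟧) (hA : IsDeformation z c A₀ A)
    -- the isomonodromic deformation is algebraic
    (halg : ∀ i a b, IsAlgebraic (Polynomial R) (A i a b)) :
    ∃ g : R, g ≠ 0 ∧
      -- for all homomorphisms to fields of characteristic `p > 0` such that `g` is not mapped to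
      -- zero, for which the `p`-curvature of the system `S` is zero modulo `p`
      ∀ (k : Type) [Field k] (φ : R →+* k) (p : ℕ), p.Prime → (p : k) = 0 → φ g ≠ 0 →
        PCurvZero z A₀ p →
        -- (a) the family has a reduction `B`, and its `p`-curvature is zero
        ∃ B : Fin m → Matrix (Fin n) (Fin n) k⟦X⟧,
          (∀ i a b j, IsReduction φ (coeff j (A i a b)) (coeff j (B i a b))) ∧
          curv B (fun i => C (φ (z i)) + C (φ (c i)) * X) p = 0 ∧
          -- (b) if the family is rational, `A_i(s) = N_i(s) / H(s)`, then the `p`-curvatures of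
          -- all its members are zero
          ∀ (H : Polynomial R) (N : Fin m → Matrix (Fin n) (Fin n) (Polynomial R)),
            (∀ i a b, ((H.map (algebraMap R K) : Polynomial K) : K⟦X⟧) * A i a b =
              ((N i a b).map (algebraMap R K) : Polynomial K)) →
            ∀ t : k, H.eval₂ φ t ≠ 0 →
              curv (fun i => (H.eval₂ φ t)⁻¹ • (N i).map (Polynomial.eval₂ φ t))
                (fun i => φ (z i) + φ (c i) * t) p = 0 := by
  obtain ⟨g, hg, h⟩ := Pool.Agent.X319.OM.all_members z c hz A₀ A hA.1 hA.2 halg
  refine ⟨g, hg, fun k _ φ p hp hpk hφ hS => ?_⟩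
  obtain ⟨B, hB, hrat, hcurv⟩ := h k φ hφ
  have h0 := hcurv p hp hpk hS
  refine ⟨B, hB, h0, fun H N hN t ht => ?_⟩
  have h1 := Pool.Agent.X319.OM.member (fun i => φ (z i)) (fun i => φ (c i)) B p h0 (H.map φ)
    (fun i => (N i).map (Polynomial.map φ)) (fun i a b => hrat H N hN i a b) t
    (by rwa [Polynomial.eval_map])
  rw [Polynomial.eval_map] at h1
  have h2 : (fun i => ((H.eval₂ φ t)⁻¹ • ((N i).map (Polynomial.map φ)).map (Polynomial.eval t) :
      Matrix (Fin n) (Fin n) k)) = fun i => (H.eval₂ φ t)⁻¹ • (N i).map (Polynomial.eval₂ φ t) := by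
    funext i
    ext1 a b
    simp only [Matrix.smul_apply, Matrix.map_apply, Polynomial.eval_map]
  rw [h2] at h1
  exact h1

end Pool.Agent.Results.MP_0707f5_ag.OneMember
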