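import Pool.Agent.X98.KZ.Fin

/-!
# Isomonodromic families of KZ type: the p-curvatures vanish if they vanish at one point

Let `A i` be constant matrices and let `S_z` be the Fuchsian system `y' = (∑ A i / (x - z i)) y`,
depending on the poles `z`.  The family is isomonodromic if the flat connection
`d - ∑ A i dlog (x - z i) - ∑ W i j dlog (z i - z j)` exists (the equations of
Knizhnik-Zamolodchikov type, for example the systems of Jordan-Pochhammer and Lauricella; for two
finite poles this is no condition).

Outline of the proof.  In the coordinates `u i = 1 / (z i - x)` the operator `∇_{d/dx}` is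
`V + ∑ u i A i` with `V = ∑ u i ^ 2 ∂ / ∂ u i`, and the `p`-curvature is a matrix `P` of
homogeneous polynomials of degree `p` in the `u i`.  It is horizontal.  If it vanishes at a point
off the arrangement then all its Taylor coefficients at this point with exponents less than `p`
vanish, so `P = ∑ C i u i ^ p`; here `C i = A i ^ p - A i`.  Specializing the poles one gets the
statement on the sums of the residues.
-/

set_option autoImplicit false

open Polynomial Pool.Agent.X98.KZ

universe u v w

namespace Pool.Agent.Results.MP_0707f5_ag.OnePoint

/-- Let `R` be a domain of characteristic zero, finitely generated over `ℤ`, and let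
`A i` be matrices over `R` of KZ type: for all `i ≠ j` there is a matrix `W` which commutes with
`A i + A j` and with the `A l`, `l ≠ i, j`, such that `A j + W` commutes with `A i`.  Let `S_z` be
the system `y' = (∑ A i / (x - z i)) y`.

Suppose that for one `z₀` (with distinct entries in `R`) either the `p`-curvatures of `S_{z₀}`
vanish at almost all closed points of `Spec R`, or the residues `A i` are diagonalizable with
rational eigenvalues and the `p`-curvatures of `S_{z₀}` vanish at one point `x = x₀` at almost all
closed points.  Then

* the `p`-curvatures of all systems `S_z` vanish at almost all closed points `𝔪` of `Spec R` (the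
  entries of `z` may lie in any extension field of `R / 𝔪`, and need not be distinct);
* for every set `I` the sum `∑ i ∈ I, A i` is diagonalizable with rational eigenvalues.

The last statement says that two matrices are always of KZ type: so for systems with three singular
points on the projective line, `p`-curvatures which vanish at one point vanish identically. -/
theorem result {R : Type u} [CommRing R] [IsDomain R] [CharZero R] [Algebra.FiniteType ℤ R]
    {ι : Type v} [Fintype ι] [DecidableEq ι] {n : ℕ} :
    (∀ A : ι → Matrix (Fin n) (Fin n) R, KZType A → ∀ z₀ : ι → R, Function.Injective z₀ →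
      (AlmostAll R (fun 𝔪 p => curv (fun i => (A i).map (Ideal.Quotient.mk 𝔪))
          (fun i => Ideal.Quotient.mk 𝔪 (z₀ i)) p = 0) ∨
        (∀ i, DiagRat (A i)) ∧ ∃ x₀ : R, (∀ i, x₀ ≠ z₀ i) ∧
          AlmostAll R (fun 𝔪 p => (curv (fun i => (A i).map (Ideal.Quotient.mk 𝔪))
            (fun i => Ideal.Quotient.mk 𝔪 (z₀ i)) p).map
              (Polynomial.eval (Ideal.Quotient.mk 𝔪 x₀)) = 0)) →
      AlmostAll R (fun 𝔪 p => ∀ (k : Type w) [Field k] (φ : R ⧸ 𝔪 →+* k) (z : ι → k),
        curv (fun i => (A i).map fun x => φ (Ideal.Quotient.mk 𝔪 x)) z p = 0) ∧
      ∀ I : Finset ι, DiagRat (∑ i ∈ I, A i)) ∧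
    ∀ B : Fin 2 → Matrix (Fin n) (Fin n) R, KZType B := by
  refine ⟨fun A hA z₀ hz h => main.{u, v, w} A hA z₀ hz h, fun B i j hij => ?_⟩
  refine ⟨-(B i + B j), fun l hl hl' => ?_, ?_, ?_⟩
  · exfalso
    fin_cases i <;> fin_cases j <;> fin_cases l <;> simp_all
  · noncomm_ring
  · noncomm_ring

end Pool.Agent.Results.MP_0707f5_ag.OnePoint
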