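import Pool.Agent.X98.SL.PI

/-!
# Isomonodromic deformations of systems with vanishing p-curvature are integral up to order `p²`

Outline: let `Y` be a fundamental matrix of the system `S`. The isomonodromic deformation is
obtained by gluing `S` outside the poles with the translates of `S` near the poles; the gluing
functions are `Y(x) Y(x - c_i s)⁻¹ = ∑ (-c_i s)^k / k! ∇^k(1)`. If the p-curvature is zero modulo `p`,
then `∇^k / k!` has the denominator `⌊k/p⌋!` at `p`. The solution `P` of the factorization problem is
determined by congruences modulo powers of `x - z_i` and a bound of the degree, so it has the same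
denominators, and the deformed system is the gauge transform of `S` by `P`.
-/

set_option autoImplicit false

namespace Pool.Agent.Results.MP_0707f5_ag.SchlesingerIntegrality

open Pool.Agent.X98.KZ Pool.Agent.X98.SL PowerSeries

variable {R K : Type} [CommRing R] [Field K] [Algebra R K] {m n : ℕ}

/-- `(A_i(s))` is the isomonodromic deformation of the system `y' = ∑ A_i / (x - z_i) y` when the
poles move along `a_i = z_i + c_i s`: it solves the Schlesinger equations. -/
def IsDeformation (z c : Fin m → R) (A₀ : Fin m → Matrix (Fin n) (Fin n) R)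
    (A : Fin m → Matrix (Fin n) (Fin n) K⟦X⟧) : Prop :=
  (∀ i, (A i).map (constantCoeff (R := K)) = (A₀ i).map (algebraMap R K)) ∧
    Schl (fun i => algebraMap R K (z i)) (fun i => algebraMap R K (c i)) A

/-- The p-curvature of `y' = ∑ A_i / (x - z_i) y` is zero modulo `p`. -/
def PCurvZero (z : Fin m → R) (A₀ : Fin m → Matrix (Fin n) (Fin n) R) (p : ℕ) : Prop :=
  ∀ a b, (p : Polynomial R) ∣ curv A₀ z p a b

/-- **Isomonodromic deformations of systems with vanishing p-curvature.** -/
theorem result [IsDomain R] [CharZero R] [IsFractionRing R K] (z c : Fin m → R)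
    (hz : ∀ i j, i ≠ j → IsUnit (z i - z j)) (A₀ : Fin m → Matrix (Fin n) (Fin n) R) :
    -- the isomonodromic deformation exists as a formal power series and is unique
    ∃ A : Fin m → Matrix (Fin n) (Fin n) K⟦X⟧, IsDeformation z c A₀ A ∧
      (∀ A' : Fin m → Matrix (Fin n) (Fin n) K⟦X⟧, IsDeformation z c A₀ A' → A' = A) ∧
      ∀ p : ℕ, p.Prime → PCurvZero z A₀ p →
        -- (a) the Taylor coefficients have at most the denominator `⌊k/p⌋!` at `p`
        (∀ i k a b, PInt R p (((k / p).factorial : K) * coeff k (A i a b))) ∧
        -- (b) the p-curvature of the deformed system is zero modulo `p` in the same sense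
        (∀ k l a b, PZero R p (((k / p).factorial : K) * coeff k
          ((curv A (pos (fun i => algebraMap R K (z i)) (fun i => algebraMap R K (c i)))
            p a b).coeff l))) ∧
        -- (c) there are no denominators in degrees `< p ^ 2`
        (∀ k, k < p ^ 2 → (∀ i a b, PInt R p (coeff k (A i a b))) ∧
          ∀ l a b, PZero R p (coeff k
            ((curv A (pos (fun i => algebraMap R K (z i)) (fun i => algebraMap R K (c i)))
              p a b).coeff l))) := by
  have hK : CharZero K := charZero_of_injective_algebraMap (IsFractionRing.injective R K)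
  set g : Fin m → Fin m → K⟦X⟧ := fun i j => C (algebraMap R K (c i) - algebraMap R K (c j)) *
    (pos (fun i => algebraMap R K (z i)) (fun i => algebraMap R K (c i)) i -
      pos (fun i => algebraMap R K (z i)) (fun i => algebraMap R K (c i)) j)⁻¹ with hg
  obtain ⟨A, hA0, hA⟩ := exists_sol g fun i => (A₀ i).map (algebraMap R K)
  have hA0' : ∀ i, (A i).map (constantCoeff (R := K)) = (A₀ i).map (algebraMap R K) := by
    intro i
    rw [← Pool.Agent.X98.SC.cm_zero_eq, hA0]
  have hAS : Schl (fun i => algebraMap R K (z i)) (fun i => algebraMap R K (c i)) A := hA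
  refine ⟨A, ⟨hA0', hAS⟩, ?_, fun p hp h => ?_⟩
  · rintro A' ⟨h1, h2⟩
    refine unique_sol g A' A (fun i => ?_) h2 hA
    rw [hA0, Pool.Agent.X98.SC.cm_zero_eq, h1]
  · obtain ⟨h1, h2⟩ := at_prime hp z c hz A₀ h A hA0' hAS
    refine ⟨h1, h2, fun k hk => ⟨fun i a b => ?_, fun l a b => ?_⟩⟩
    · exact (h1 i k a b).of_mul R hp (not_dvd_wt hp hk)
    · exact (h2 k l a b).of_mul R hp (not_dvd_wt hp hk)

end Pool.Agent.Results.MP_0707f5_ag.SchlesingerIntegrality
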